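import Pool.Agent.H167R3.AG.BlockWild

/-!
# Small circuits for the clique function contain many gates that are far from symmetric

The clique function is invariant under all relabelings of the vertices, in particular under the
permutations that preserve `k` given blocks of `b` vertices. Here it is shown that the functions
computed inside a small circuit for it cannot all be nearly invariant, even if the circuit only has
to tell the graphs with a clique of size `k` from those without a clique of size `k / R`.

First, the wirings of the gates of every such circuit (with arbitrary gates of unbounded fan-in, over
any set of values, no symmetry assumed) have at least `b ^ (k / K)` different transforms under the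
block permutations. Second, let the circuit have fan-in at most `w`, and let `t` be the number of
the gates whose functions have more than `m` different transforms under the block permutations.
Then `b ^ k ≤ (|C| * (b ^ 2 * m ^ w) ^ (t + 1)) ^ K`. So with blocks of constant size a circuit of
fan-in two and of size `2 ^ o(k)` contains at least `c k / log m` gates whose functions have more
than `m` transforms. (Simple functions such as the number of edges do not need such gates: sum first
over the pairs of vertices in two given blocks.)
-/

namespace Pool.Agent.Results.MP_0a1b52_lc.AsymmetricGates

open Pool.Agent.H429R4.Sem (Circuit)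
open Pool.Agent.H429R4.GC (adj numWirings)
open Pool.Agent.H167R3.AG (numWild blockRelabelings)

/-- **The number of asymmetric gates in circuits for cliques.** -/
theorem result (R : ℕ) : ∃ K : ℕ, ∀ (W : Type) [Finite W] (k b : ℕ) (φ : Fin k × Fin b ↪ W),
    K ≤ k → K ≤ b → ∀ (D L : Type) (C : Circuit (W × W) D L) (acc : Set D),
    (∀ G : SimpleGraph W, ¬ G.CliqueFree k → C.output (adj G) ∈ acc) →
    (∀ H : SimpleGraph W, (∀ q, k ≤ R * q → H.CliqueFree q) → C.output (adj H) ∉ acc) →
    b ^ k ≤ numWirings adj C (blockRelabelings φ) ^ K ∧
    ∀ m w : ℕ, 0 < m → (∀ g, Multiset.card (C.wires g) ≤ w) →
      b ^ k ≤ (C.size * (b ^ 2 * m ^ w) ^ (numWild adj C (blockRelabelings φ) m + 1)) ^ K :=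
  Pool.Agent.H167R3.AG.clique_wild R

end Pool.Agent.Results.MP_0a1b52_lc.AsymmetricGates
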