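import Pool.Agent.H429R4.GC.Brute

/-!
# Circuits with few wirings up to relabeling cannot approximate the clique number

A relabeling of the vertices turns the wiring of a gate of a circuit on graphs (the bit that the
gate reads, and the multiset of the labelled functions on the wires that enter it) into a transform
of the wiring. No symmetry of the circuit is assumed, the circuit is nonuniform, and the gates may
compute arbitrary functions of unbounded fan-in with values in an arbitrary set. We show that a
circuit that tells the graphs on `n` vertices that have a clique of size `k` from the graphs that
have no clique of size `k / R` has at least `(n / k) ^ (k / K)` different transforms of wirings. In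
fact there is one pair of graphs `G`, `H`, where `G` has a clique of size `k` and `H` has no clique
of size `k / R`, such that all circuits with fewer wirings output any value for exactly as many
relabelings of `G` as of `H`. The bound is optimal up to the factor `1 / K` in the exponent: the
circuit that tries all sets of `k` vertices has at most `n ^ 2 + n.choose k + 1` wirings.

If the circuit is symmetric (every relabeling extends to an automorphism) then the number of the
transforms of the wirings is at most the number of gates
(`Pool.Agent.H429R4.GC.numWirings_le_size`).
-/

namespace Pool.Agent.Results.MP_0a1b52_lc.FewRelabelings

open Pool.Agent.H429R4.Sem (Circuit)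
open Pool.Agent.H429R4.GC

/-- **Circuits with few wirings up to relabeling cannot approximate the clique number.**
For every `R` there is a constant `K` such that for every finite set `W` and every `k` with
`K ≤ k ≤ |W| / K` the following holds.

There are graphs `G` and `H` on `W` such that `G` has a clique of size `k`, while `H` has no clique
of any size `q` with `k ≤ R * q`, and such that every circuit (with arbitrary gates) for which the number `T`
of the different transforms of the wirings of its gates under the relabelings satisfies
`T ^ K < (|W| / k) ^ k` outputs any given value `d` for exactly as many relabelings of `G` as of
`H`.

On the other hand, there is a circuit for which this number is at most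
`|W| ^ 2 + (|W|.choose k) + 1` and which decides whether a graph has a clique of size `k`. -/
theorem result (R : ℕ) :
    ∃ K : ℕ, ∀ (W : Type) [Fintype W] (k : ℕ), K ≤ k → K * k ≤ Fintype.card W →
      (∃ G H : SimpleGraph W, ¬ G.CliqueFree k ∧ (∀ q, k ≤ R * q → H.CliqueFree q) ∧
        ∀ (D L : Type) (C : Circuit (W × W) D L) (d : D),
          (numWirings adj C (relabelings W) : ℝ) ^ K < ((Fintype.card W : ℝ) / k) ^ k →
          Nat.card {σ : Equiv.Perm W // C.output (adj (G.comap σ)) = d} =
            Nat.card {σ : Equiv.Perm W // C.output (adj (H.comap σ)) = d}) ∧
      ∃ C : Circuit (W × W) Bool Unit,
        numWirings adj C (relabelings W) ≤ Fintype.card W ^ 2 + (Fintype.card W).choose k + 1 ∧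
        ∀ G : SimpleGraph W, C.output (adj G) = true ↔ ¬ G.CliqueFree k := by
  classical
  obtain ⟨K, hK⟩ := clique_pair R
  exact ⟨K, fun W _ k hk hW => ⟨hK W k hk hW, brute k, numWirings_brute k, brute_output k⟩⟩

end Pool.Agent.Results.MP_0a1b52_lc.FewRelabelings
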