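import Pool.Agent.H641R3.RG.Upper

/-!
# Nondeterministic read-once programs cannot approximate the clique number

A nondeterministic (syntactic) read-once branching program that accepts all graphs on `n` vertices
with a clique of `s` vertices and rejects all graphs without a clique of `s / g` vertices needs
`(n / s) ^ (s / (2 ^ 18 g ^ 8))` nodes, for all `g ≥ 1`, `s ≥ 15 g ^ 2` and `n ≥ 2 s`. On the other
hand `C(n, q) (N + 1) + 1` nodes suffice to recognise the graphs with a clique of `q` vertices. So
for every constant `g` and for `s = ⌊√n⌋ + 1` (the clique function of the problem) the size is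
`n ^ Θ(√n)`.

Proof: an accepting computation on the complete graph on a set `S` of `s` vertices is cut into
`O(g ^ 4)` pieces such that no piece reads more than an `O(g ^ (-4))` fraction of the pairs in `S`.
All sets `S` with the same cutting points can be mixed: the program accepts the graph whose edges
are, for each piece `t`, the pairs read in the piece `t` that lie in `S_t`. A clique of `s / g`
vertices in such a mixture meets the sets `S_t` in at least `5 s` elements altogether; since the
vertices of a clique that must lie in `S_t` are determined by the clique and the cutting points, this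
happens only for few choices of the sets `S_t`.
-/

set_option autoImplicit false

namespace Pool.Agent.Results.MP_0a1b52_lc.ReadOnceGap

open Pool.Agent.H554R2.Sem Pool.Agent.H554R2.RK Pool.Agent.H641R3.RG

/-- `φ` enumerates the pairs of vertices; `graphOf φ x` is the graph in which the pair `φ i` is
joined if and only if `x i = true`. -/
theorem result (n s g N : ℕ) (hg : 1 ≤ g) (hs : 15 * g ^ 2 ≤ s) (hn : 2 * s ≤ n)
    (φ : Fin N ≃ {e : Sym2 (Fin n) // ¬ e.IsDiag}) :
    (∀ P : NBP (Fin N), ReadK P 1 →
      (∀ x, (∃ S : Finset (Fin n), S.card = s ∧ (graphOf φ x).IsClique (S : Set (Fin n))) →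
        Acc P x) →
      (∀ x, (∀ Q : Finset (Fin n), (graphOf φ x).IsClique (Q : Set (Fin n)) → g * Q.card < s) →
        ¬ Acc P x) →
      n ^ s ≤ s ^ s * (Fintype.card P.State + 1) ^ (2 ^ 18 * g ^ 8)) ∧
    (∀ q : ℕ, ∃ P : NBP (Fin N), ReadK P 1 ∧
      Fintype.card P.State = n.choose q * (N + 1) + 1 ∧
      ∀ x, Acc P x ↔ ∃ Q : Finset (Fin n), Q.card = q ∧
        (graphOf φ x).IsClique (Q : Set (Fin n))) := by
  refine ⟨fun P hP hyes hno => ?_, fun q => upper φ q⟩
  refine lower n s g N hg hs hn φ P hP hyes fun x hx => ?_
  by_contra hcon
  push Not at hcon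
  refine hno x (fun Q hQ => ?_) hx
  by_contra hlt
  exact hcon Q (not_lt.1 hlt) hQ

end Pool.Agent.Results.MP_0a1b52_lc.ReadOnceGap
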